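import Pool.Agent.H500.SV.Stm

/-!
# Project SV (helper500), part 3: choice of an exponent
-/

set_option autoImplicit false

namespace Pool.Agent.H665.SV.Cho

theorem main : Pool.Agent.H500.SV.S_Cho := by
  intro n B m0 hm0
  set q : ℕ := m0 * (n ^ 2).factorial with hq
  have hq0 : 0 < q := Nat.mul_pos hm0 (Nat.factorial_pos _)
  refine ⟨fun t => B.factorial * q ^ (t : ℕ), fun t =>
    ⟨Nat.mul_pos (Nat.factorial_pos _) (pow_pos hq0 _), Dvd.intro _ rfl⟩, ?_⟩
  intro k H _ _ χ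
  by_contra hcon
  push Not at hcon
  choose i i' h1 h2 using hcon
  choose s hs hsn h3 using h2
  obtain ⟨t, t', hne, he⟩ := Fintype.exists_ne_map_eq_of_card_lt (fun t : Fin (n ^ 2 + 1) => (i t, i' t))
    (by simp [sq])
  have key : ∀ a b : Fin (n ^ 2 + 1), a < b → (i a, i' a) ≠ (i b, i' b) := by
    intro a b hab hab2
    obtain ⟨e1, e2⟩ := Prod.mk.inj hab2
    obtain ⟨h, hh⟩ := h1 b
    apply hh
    have hdvd : B.factorial * q ^ (a : ℕ) * m0 * s a ∣ B.factorial * q ^ (b : ℕ) := by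
      have d1 : s a ∣ (n ^ 2).factorial := Nat.dvd_factorial (hs a) (hsn a)
      have d2 : m0 * s a ∣ q := Nat.mul_dvd_mul_left m0 d1
      have d3 : q ^ (a : ℕ) * (m0 * s a) ∣ q ^ ((a : ℕ) + 1) := by
        rw [pow_succ q (a : ℕ)]
        exact Nat.mul_dvd_mul_left _ d2
      have d4 : q ^ ((a : ℕ) + 1) ∣ q ^ (b : ℕ) := pow_dvd_pow q hab
      have d5 := Nat.mul_dvd_mul_left B.factorial (d3.trans d4)
      rwa [← mul_assoc B.factorial, ← mul_assoc (B.factorial * _)] at d5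
    obtain ⟨c, hc⟩ := hdvd
    have h4 := h3 a h
    rw [e1, e2] at h4
    show χ (i b) h ^ (B.factorial * q ^ (b : ℕ)) = χ (i' b) h ^ (B.factorial * q ^ (b : ℕ))
    rw [hc, pow_mul, pow_mul (χ (i' b) h) _ c]
    exact congrArg (· ^ c) h4
  rcases lt_or_gt_of_ne hne with h | h
  · exact key t t' h he
  · exact key t' t h he.symm

end Pool.Agent.H665.SV.Cho
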